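import Pool.Agent.Run7.h630.MQ.Iface
import Pool.Agent.Run7.h4.YM.SUN

/-!
# The measure of small balls in `SU(N)` (piece E1 of the interface `Run7.h630.MQ`)
-/

open MeasureTheory Matrix Filter Topology
open scoped Matrix.Norms.Frobenius ComplexConjugate

namespace Run7.h771.MQ

open Run7.h4.YM Run7.h630.ML Run7.h630.MQ

/-- the cell of a group element -/
noncomputable def cell {N : ℕ} (m : ℕ) (g : SU N) : Fin N × Fin N → ℤ × ℤ := fun p =>
  (⌊(m : ℝ) * (g.1 p.1 p.2).re⌋, ⌊(m : ℝ) * (g.1 p.1 p.2).im⌋)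

/-- the possible cells -/
noncomputable def cells (N m : ℕ) : Finset (Fin N × Fin N → ℤ × ℤ) :=
  Fintype.piFinset fun _ => Finset.Icc (-(m : ℤ)) m ×ˢ Finset.Icc (-(m : ℤ)) m

theorem card_cells (N m : ℕ) : (cells N m).card = (2 * m + 1) ^ (2 * N ^ 2) := by
  have h : (Finset.Icc (-(m : ℤ)) m).card = 2 * m + 1 := by
    rw [Int.card_Icc]; omega
  unfold cells
  rw [Fintype.card_piFinset]
  simp only [Finset.card_product, h, Finset.prod_const, Finset.card_univ, Fintype.card_prod,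
    Fintype.card_fin]
  rw [← pow_two, ← pow_mul]
  congr 1
  ring

theorem floor_mem {m : ℕ} {x : ℝ} (hx : |x| ≤ 1) :
    ⌊(m : ℝ) * x⌋ ∈ Finset.Icc (-(m : ℤ)) m := by
  rw [abs_le] at hx
  have hm : (0 : ℝ) ≤ m := Nat.cast_nonneg m
  rw [Finset.mem_Icc]
  constructor
  · rw [Int.le_floor]
    push_cast
    nlinarith
  · rw [Int.floor_le_iff]
    push_cast
    nlinarith

theorem cell_mem {N : ℕ} (m : ℕ) (g : SU N) : cell m g ∈ cells N m := by
  unfold cells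
  rw [Fintype.mem_piFinset]
  intro p
  rw [Finset.mem_product]
  have h := entry_le g p.1 p.2
  exact ⟨floor_mem ((Complex.abs_re_le_norm _).trans h), floor_mem ((Complex.abs_im_le_norm _).trans h)⟩

theorem floor_close {m : ℕ} (hm : 0 < m) {x y : ℝ} (h : ⌊(m : ℝ) * x⌋ = ⌊(m : ℝ) * y⌋) :
    |x - y| ≤ 1 / m := by
  have h1 := Int.abs_sub_lt_one_of_floor_eq_floor h
  have hm' : (0 : ℝ) < m := by exact_mod_cast hm
  rw [← mul_sub, abs_mul, abs_of_pos hm'] at h1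
  rw [le_div_iff₀ hm']
  linarith

theorem cell_close {N : ℕ} {m : ℕ} (hm : 0 < m) {g h : SU N} (hc : cell m g = cell m h) :
    ‖g.1 - h.1‖ ^ 2 ≤ 2 * N ^ 2 / m ^ 2 := by
  rw [← dd_eq_norm, dd_sq]
  have hm' : (0 : ℝ) < m := by exact_mod_cast hm
  have key : ∀ i j : Fin N, ‖g.1 i j - h.1 i j‖ ^ 2 ≤ 2 / (m : ℝ) ^ 2 := by
    intro i j
    have e := congrFun hc (i, j)
    simp only [cell, Prod.mk.injEq] at e
    have e1 := floor_close hm e.1
    have e2 := floor_close hm e.2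
    rw [← Complex.normSq_eq_norm_sq, Complex.normSq_apply, Complex.sub_re, Complex.sub_im]
    have f1 : ((g.1 i j).re - (h.1 i j).re) ^ 2 ≤ (1 / (m : ℝ)) ^ 2 := by
      rw [← sq_abs]; exact pow_le_pow_left₀ (abs_nonneg _) e1 2
    have f2 : ((g.1 i j).im - (h.1 i j).im) ^ 2 ≤ (1 / (m : ℝ)) ^ 2 := by
      rw [← sq_abs]; exact pow_le_pow_left₀ (abs_nonneg _) e2 2
    have f3 : (1 / (m : ℝ)) ^ 2 = 1 / (m : ℝ) ^ 2 := by rw [div_pow, one_pow]
    rw [f3] at f1 f2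
    have : 2 / (m : ℝ) ^ 2 = 1 / (m : ℝ) ^ 2 + 1 / (m : ℝ) ^ 2 := by ring
    rw [this]
    nlinarith
  calc ∑ i, ∑ j, ‖g.1 i j - h.1 i j‖ ^ 2
      ≤ ∑ _i : Fin N, ∑ _j : Fin N, 2 / (m : ℝ) ^ 2 :=
        Finset.sum_le_sum fun i _ => Finset.sum_le_sum fun j _ => key i j
    _ = 2 * N ^ 2 / m ^ 2 := by
        simp only [Finset.sum_const, Finset.card_univ, Fintype.card_fin, nsmul_eq_mul]
        ring

theorem t_E1 : S_E1 := by
  intro N _ _ _ μ _ _
  have hN : (1 : ℝ) ≤ N := by exact_mod_cast NeZero.one_le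
  refine ⟨((7 * (N : ℝ)) ^ (2 * N ^ 2))⁻¹, by positivity, fun η hη hη1 => ?_⟩
  set B : Set (SU N) := {g : SU N | ‖g.1 - 1‖ < η} with hB
  obtain ⟨m, hm1, hm2⟩ : ∃ m : ℕ, 2 * (N : ℝ) / η ≤ m ∧ (m : ℝ) < 2 * N / η + 1 :=
    ⟨⌈2 * (N : ℝ) / η⌉₊, Nat.le_ceil _, Nat.ceil_lt_add_one (by positivity)⟩
  have hmpos' : (0 : ℝ) < m := lt_of_lt_of_le (by positivity) hm1
  have hmpos : 0 < m := by exact_mod_cast hmpos'
  have hclose : ∀ g h : SU N, cell m g = cell m h → ‖g.1 - h.1‖ < η := by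
    intro g h hc
    have h1 := cell_close hmpos hc
    have h2 : 2 * (N : ℝ) ^ 2 / m ^ 2 < η ^ 2 := by
      rw [div_lt_iff₀ (by positivity)]
      rw [div_le_iff₀ hη] at hm1
      have h3 : (2 * (N : ℝ)) ^ 2 ≤ (m * η) ^ 2 := pow_le_pow_left₀ (by positivity) hm1 2
      nlinarith
    exact lt_of_pow_lt_pow_left₀ 2 hη.le (h1.trans_lt h2)
  have hcell : ∀ a ∈ cells N m, μ (cell m ⁻¹' {a}) ≤ μ B := by
    intro a _
    rcases (cell m ⁻¹' {a}).eq_empty_or_nonempty with h0 | ⟨g, hg⟩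
    · rw [h0, measure_empty]; exact zero_le
    · have hsub : cell m ⁻¹' {a} ⊆ (fun h : SU N => g⁻¹ * h) ⁻¹' B := by
        intro h hh
        have hc : cell m h = cell m g := by
          rw [Set.mem_preimage, Set.mem_singleton_iff] at hh hg
          rw [hh, hg]
        have h1 := hclose h g hc
        show ‖(g⁻¹ * h).1 - 1‖ < η
        have h2 : dd (g⁻¹ * h) (g⁻¹ * g) = dd h g := dd_mul_left _ _ _
        rw [inv_mul_cancel, dd_eq_norm, dd_eq_norm] at h2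
        have h3 : ((1 : SU N)).1 = 1 := rfl
        rw [h3] at h2
        rw [h2]
        exact h1
      calc μ (cell m ⁻¹' {a}) ≤ μ ((fun h : SU N => g⁻¹ * h) ⁻¹' B) := measure_mono hsub
        _ = μ B := measure_preimage_mul μ g⁻¹ B
  have huniv : (1 : ENNReal) ≤ (cells N m).card * μ B := by
    calc (1 : ENNReal) = μ Set.univ := measure_univ.symm
      _ ≤ μ (⋃ a ∈ cells N m, cell m ⁻¹' {a}) := by
          refine measure_mono fun g _ => ?_
          simp only [Set.mem_iUnion]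
          exact ⟨cell m g, cell_mem m g, rfl⟩
      _ ≤ ∑ a ∈ cells N m, μ (cell m ⁻¹' {a}) := measure_biUnion_finset_le _ _
      _ ≤ ∑ a ∈ cells N m, μ B := Finset.sum_le_sum hcell
      _ = (cells N m).card * μ B := by rw [Finset.sum_const, nsmul_eq_mul]
  have hreal : (1 : ℝ) ≤ (2 * m + 1) ^ (2 * N ^ 2) * μ.real B := by
    have h1 := ENNReal.toReal_mono
      (ENNReal.mul_ne_top (ENNReal.natCast_ne_top _) (measure_ne_top μ B)) huniv
    rw [ENNReal.toReal_mul, ENNReal.toReal_natCast, ENNReal.toReal_one, card_cells] at h1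
    push_cast at h1
    exact h1
  have hbound : (2 * (m : ℝ) + 1) ≤ 7 * N / η := by
    rw [le_div_iff₀ hη]
    have h1 : (m : ℝ) * η < 2 * N + η := by
      have := mul_lt_mul_of_pos_right hm2 hη
      rw [add_mul, div_mul_cancel₀ _ hη.ne', one_mul] at this
      exact this
    nlinarith
  have hpow : (2 * (m : ℝ) + 1) ^ (2 * N ^ 2) ≤ (7 * N / η) ^ (2 * N ^ 2) :=
    pow_le_pow_left₀ (by positivity) hbound _
  have hB0 : 0 ≤ μ.real B := measureReal_nonneg
  have h1 : (1 : ℝ) ≤ (7 * N / η) ^ (2 * N ^ 2) * μ.real B :=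
    hreal.trans (mul_le_mul_of_nonneg_right hpow hB0)
  rw [div_pow, div_mul_eq_mul_div, le_div_iff₀ (by positivity), one_mul] at h1
  rw [inv_mul_le_iff₀ (by positivity)]
  exact h1

end Run7.h771.MQ
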