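import Pool.Agent.Run7.h771.MQ.C01

/-!
# Integration by parts for a left invariant flow on a product of groups `SU(N)`
(piece C4 of the interface `Run7.h630.MQ`)
-/

open MeasureTheory Matrix Filter Topology
open scoped Matrix.Norms.Frobenius ComplexConjugate

namespace Run7.h771.MQ

open Run7.h4.YM Run7.h630.ML Run7.h630.MQ

variable {N n L l : ℕ}

theorem ex_add {A : Mt N} (hA : Aᴴ = -A) (hT : trace A = 0) (s t : ℝ) :
    ex (s + t) A = ex s A * ex t A := by
  apply Subtype.ext
  rw [coe_mul', t_C0 N A hA hT, t_C0 N A hA hT, t_C0 N A hA hT, add_smul,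
    Matrix.exp_add_of_commute _ _ (((Commute.refl A).smul_left s).smul_right t)]

theorem fl_add {K : Site n L l → Mt N} (hK : Sk K) (s t : ℝ) (U : Link n L l → SU N) :
    fl K (s + t) U = fl K s (fl K t U) := by
  funext e
  unfold fl
  split_ifs with h
  · rw [ex_add (hK _).1 (hK _).2, mul_assoc]
  · rfl

theorem fl_eq_mul (K : Site n L l → Mt N) (t : ℝ) :
    fl K t = fun U => (fun e => if e.1 = 2 then ex t (K e.2) else 1) * U := by
  funext U e
  unfold fl
  rw [Pi.mul_apply]
  split_ifs with h
  · rfl
  · rw [one_mul]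

theorem t_C4 : S_C4 := by
  intro N n L l _ _ _ _ _ _ μ _ _ K hK f Df hf hDf hd
  set ν : Measure (Link n L l → SU N) := Measure.pi fun _ : Link n L l => μ with hν
  have hmp : ∀ t : ℝ, MeasurePreserving (fl K t) ν ν := by
    intro t
    rw [fl_eq_mul]
    exact measurePreserving_mul_left ν _
  have hd' : ∀ (U : Link n L l → SU N) (t : ℝ),
      HasDerivAt (fun s => f (fl K s U)) (Df (fl K t U)) t := by
    intro U t
    have h1 := hd (fl K t U)
    have h2 : (fun s : ℝ => f (fl K s U)) = fun s => (fun r => f (fl K r (fl K t U))) (s - t) := by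
      funext s
      simp only
      rw [← fl_add hK, sub_add_cancel]
    rw [h2]
    have h3 : HasDerivAt (fun r => f (fl K r (fl K t U))) (Df (fl K t U)) (t - t) := by
      rw [sub_self]; exact h1
    simpa using h3.comp_sub_const t t
  obtain ⟨C, hC⟩ : ∃ C : ℝ, ∀ U, ‖Df U‖ ≤ C := by
    obtain ⟨C, hC⟩ := (isCompact_univ (X := Link n L l → SU N)).exists_bound_of_continuousOn
      hDf.continuousOn
    exact ⟨C, fun U => hC U (Set.mem_univ U)⟩
  obtain ⟨C', hC'⟩ : ∃ C : ℝ, ∀ U, ‖f U‖ ≤ C := by
    obtain ⟨C, hC⟩ := (isCompact_univ (X := Link n L l → SU N)).exists_bound_of_continuousOn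
      hf.continuousOn
    exact ⟨C, fun U => hC U (Set.mem_univ U)⟩
  have hcont : ∀ t : ℝ, Continuous (fl K t : (Link n L l → SU N) → _) := by
    intro t
    rw [fl_eq_mul]
    exact continuous_const.mul continuous_id
  have hint : ∀ t : ℝ, Integrable (fun U => f (fl K t U)) ν := by
    intro t
    refine Integrable.of_bound ((hf.comp (hcont t)).aestronglyMeasurable) C' ?_
    exact Eventually.of_forall fun U => hC' _
  have hkey := hasDerivAt_integral_of_dominated_loc_of_deriv_le (μ := ν) (𝕜 := ℝ)
    (F := fun t U => f (fl K t U)) (F' := fun t U => Df (fl K t U)) (x₀ := (0 : ℝ))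
    (bound := fun _ => C) (s := Set.univ) Filter.univ_mem
    (Eventually.of_forall fun t => (hint t).aestronglyMeasurable) (hint 0)
    ((hDf.comp (hcont 0)).aestronglyMeasurable)
    (Eventually.of_forall fun U t _ => hC _) (integrable_const C)
    (Eventually.of_forall fun U t _ => hd' U t)
  have hconst : (fun t : ℝ => ∫ U, f (fl K t U) ∂ν) = fun _ => ∫ U, f U ∂ν := by
    funext t
    exact (hmp t).integral_comp' (f := by exact
      { toFun := fl K t
        invFun := fl K (-t)
        left_inv := fun U => by rw [← fl_add hK, neg_add_cancel, fl_zero]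
        right_inv := fun U => by rw [← fl_add hK, add_neg_cancel, fl_zero]
        measurable_toFun := (hcont t).measurable
        measurable_invFun := (hcont (-t)).measurable }) f
  have h1 := hkey.2
  simp only [hconst] at h1
  have h2 := h1.unique (hasDerivAt_const (0 : ℝ) (∫ U, f U ∂ν))
  simpa only [fl_zero] using h2

end Run7.h771.MQ
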