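import Pool.Agent.Run7.h630.MQ.Iface
import Pool.Agent.Run7.h4.YM.SUN

/-!
# One-parameter groups in `SU(N)` and the derivative of the traces of the loops
(pieces C0 and C1 of the interface `Run7.h630.MQ`)
-/

open MeasureTheory Matrix Filter Topology
open scoped Matrix.Norms.Frobenius ComplexConjugate

namespace Run7.h771.MQ

open Run7.h4.YM Run7.h630.ML Run7.h630.MQ

theorem spec_eq {N : ℕ} {H : Mt N} (hH : H.IsHermitian) :
    H = (hH.eigenvectorUnitary : Mt N) * diagonal (fun i => (hH.eigenvalues i : ℂ)) *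
      star (hH.eigenvectorUnitary : Mt N) := by
  have h := hH.spectral_theorem
  rw [Unitary.conjStarAlgAut_apply] at h
  exact h

theorem exp_conj_diag {N : ℕ} (U : unitaryGroup (Fin N) ℂ) (d : Fin N → ℂ) :
    NormedSpace.exp ((U : Mt N) * diagonal d * star (U : Mt N)) =
      (U : Mt N) * diagonal (fun i => Complex.exp (d i)) * star (U : Mt N) := by
  have h := Matrix.exp_units_conj (Unitary.toUnits U) (diagonal d)
  have h1 : ((Unitary.toUnits U : (Mt N)ˣ) : Mt N) = (U : Mt N) := rfl
  have h2 : (((Unitary.toUnits U)⁻¹ : (Mt N)ˣ) : Mt N) = star (U : Mt N) := rfl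
  rw [h1, h2] at h
  rw [h, Matrix.exp_diagonal]
  congr 3
  ext i
  rw [Pi.coe_exp]
  simp [Complex.exp_eq_exp_ℂ]

/-- the determinant of the exponential of a multiple of a Hermitian matrix -/
theorem det_exp_smul {N : ℕ} {H : Mt N} (hH : H.IsHermitian) (z : ℂ) :
    (NormedSpace.exp (z • H)).det = Complex.exp (z * trace H) := by
  have h1 : z • H = (hH.eigenvectorUnitary : Mt N) *
      diagonal (fun i => z * (hH.eigenvalues i : ℂ)) * star (hH.eigenvectorUnitary : Mt N) := by
    conv_lhs => rw [spec_eq hH]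
    rw [← smul_mul_assoc, ← mul_smul_comm]
    congr 2
    ext i j
    by_cases hij : i = j
    · subst hij; simp
    · simp [hij]
  have h2 : trace H = ∑ i, (hH.eigenvalues i : ℂ) := hH.trace_eq_sum_eigenvalues
  rw [h1, exp_conj_diag, h2, Matrix.det_mul, Matrix.det_mul, Matrix.det_diagonal, mul_comm,
    ← mul_assoc, ← Matrix.det_mul]
  have : star (hH.eigenvectorUnitary : Mt N) * (hH.eigenvectorUnitary : Mt N) = 1 := by
    simp
  rw [this, Matrix.det_one, one_mul, ← Complex.exp_sum, Finset.mul_sum]

theorem mem_SU_exp {N : ℕ} {A : Mt N} (hA : Aᴴ = -A) (hT : trace A = 0) (t : ℝ) :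
    NormedSpace.exp (t • A) ∈ specialUnitaryGroup (Fin N) ℂ := by
  rw [SU_mem_iff]
  constructor
  · have h1 : star (NormedSpace.exp (t • A)) = NormedSpace.exp (-(t • A)) := by
      rw [Matrix.star_eq_conjTranspose, ← Matrix.exp_conjTranspose, Matrix.conjTranspose_smul, hA,
        smul_neg, star_trivial]
    rw [h1, ← Matrix.exp_add_of_commute _ _ (Commute.refl (t • A)).neg_right, add_neg_cancel,
      NormedSpace.exp_zero]
  · have hH : (Complex.I • A).IsHermitian := by
      unfold Matrix.IsHermitian
      rw [Matrix.conjTranspose_smul, hA]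
      simp
    have h1 : t • A = (-(Complex.I * t) : ℂ) • (Complex.I • A) := by
      rw [smul_smul]
      have : (-(Complex.I * t) * Complex.I : ℂ) = t := by
        have := Complex.I_mul_I
        linear_combination (-(t : ℂ)) * this
      rw [this]
      ext i j
      simp
    rw [h1, det_exp_smul hH, Matrix.trace_smul, hT]
    simp

theorem t_C0 : S_C0 := by
  intro N A hA hT t
  unfold ex
  rw [dif_pos (mem_SU_exp hA hT t)]

/-! ### derivatives of products -/

/-- the product of `b` terms from the index `a` -/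
def seg {N : ℕ} (u : ℕ → Mt N) (a b : ℕ) : Mt N := ((List.range b).map fun s => u (a + s)).prod

theorem seg_zero {N : ℕ} (u : ℕ → Mt N) (a : ℕ) : seg u a 0 = 1 := by simp [seg]

theorem seg_succ {N : ℕ} (u : ℕ → Mt N) (a b : ℕ) : seg u a (b + 1) = seg u a b * u (a + b) := by
  unfold seg
  rw [List.range_succ, List.map_append, List.prod_append]
  simp

theorem seg_add {N : ℕ} (u : ℕ → Mt N) (a b c : ℕ) :
    seg u a (b + c) = seg u a b * seg u (a + b) c := by
  induction c with
  | zero => rw [add_zero, seg_zero, mul_one]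
  | succ c ih => rw [← add_assoc, seg_succ, ih, seg_succ, mul_assoc, add_assoc]

theorem hasDerivAt_seg {N : ℕ} (M : ℝ → ℕ → Mt N) (K : ℕ → Mt N)
    (hM : ∀ s, HasDerivAt (fun t => M t s) (K s * M 0 s) 0) (n : ℕ) :
    HasDerivAt (fun t => seg (M t) 0 n)
      (∑ τ ∈ Finset.range n, seg (M 0) 0 τ * K τ * seg (M 0) τ (n - τ)) 0 := by
  induction n with
  | zero =>
    simp only [seg_zero, Finset.range_zero, Finset.sum_empty]
    exact hasDerivAt_const _ _
  | succ n ih =>
    have h1 := ih.mul (hM n)
    have h2 : (fun t => seg (M t) 0 (n + 1)) = (fun t => seg (M t) 0 n * M t n) := by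
      funext t
      rw [seg_succ, zero_add]
    rw [h2]
    refine h1.congr_deriv ?_
    rw [Finset.sum_range_succ, Finset.sum_mul]
    congr 1
    · refine Finset.sum_congr rfl fun τ hτ => ?_
      rw [Finset.mem_range] at hτ
      have : n + 1 - τ = (n - τ) + 1 := by omega
      rw [this, seg_succ, mul_assoc]
      congr 2
      congr 1
      omega
    · have : n + 1 - n = 0 + 1 := by omega
      rw [this, seg_succ, seg_zero, one_mul, mul_assoc]
      rfl

theorem hasDerivAt_trace_pow {N : ℕ} (L : ℝ → Mt N) (L' : Mt N) (h : HasDerivAt L L' 0) (c : ℕ) :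
    HasDerivAt (fun t => trace (L t ^ c)) (c * trace (L' * L 0 ^ (c - 1))) 0 := by
  have key : HasDerivAt (fun t => L t ^ c)
      (∑ r ∈ Finset.range c, L 0 ^ r * L' * L 0 ^ (c - 1 - r)) 0 := by
    induction c with
    | zero =>
      simp only [pow_zero, Finset.range_zero, Finset.sum_empty]
      exact hasDerivAt_const _ _
    | succ c ih =>
      have h1 := ih.mul h
      have h2 : (fun t => L t ^ (c + 1)) = (fun t => L t ^ c * L t) := by
        funext t; rw [pow_succ]
      rw [h2]
      refine h1.congr_deriv ?_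
      rw [Finset.sum_range_succ, Finset.sum_mul]
      congr 1
      · refine Finset.sum_congr rfl fun r hr => ?_
        rw [Finset.mem_range] at hr
        have : c + 1 - 1 - r = (c - 1 - r) + 1 := by omega
        rw [this, pow_succ]
        simp only [mul_assoc]
      · simp
  have h3 : HasDerivAt (fun t => trace (L t ^ c))
      (trace (∑ r ∈ Finset.range c, L 0 ^ r * L' * L 0 ^ (c - 1 - r))) 0 := by
    have hl : IsBoundedLinearMap ℝ (fun A : Mt N => trace A) :=
      (LinearMap.toContinuousLinearMap (Matrix.traceLinearMap (Fin N) ℝ ℂ)).isBoundedLinearMap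
    exact ((LinearMap.toContinuousLinearMap
      (Matrix.traceLinearMap (Fin N) ℝ ℂ)).hasFDerivAt.comp_hasDerivAt (0 : ℝ) key)
  refine h3.congr_deriv ?_
  rw [Matrix.trace_sum]
  rw [Finset.sum_congr rfl (g := fun _ => trace (L' * L 0 ^ (c - 1)))]
  · rw [Finset.sum_const, Finset.card_range, nsmul_eq_mul]
  · intro r hr
    rw [Finset.mem_range] at hr
    rw [mul_assoc, Matrix.trace_mul_comm, mul_assoc, ← pow_add]
    congr 3
    omega

/-! ### the loops -/

variable {N n L l : ℕ}

theorem coe_list_prod (s : List (SU N)) : (s.prod).1 = (s.map Subtype.val).prod := by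
  induction s with
  | nil => rfl
  | cons a s ih => rw [List.prod_cons, List.map_cons, List.prod_cons, coe_mul', ih]

/-- the matrices of the links in the direction `2` over `x` -/
def us (U : Link n L l → SU N) (x : Site n L l) (s : ℕ) : Mt N := (U (2, x + s • dir 2)).1

theorem lp_coe (U : Link n L l → SU N) (x : Site n L l) (τ : ℕ) :
    (lp U (x + τ • dir 2)).1 = seg (us U x) τ l := by
  unfold Run7.h630.MQ.lp seg us
  rw [coe_list_prod, List.map_map]
  congr 1
  refine List.map_congr_left fun s _ => ?_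
  simp only [Function.comp]
  rw [add_assoc, ← add_smul]

theorem l_smul_dir : (l • dir 2 : Site n L l) = 0 := by
  have : (dir 2 : Site n L l) = (0, 0, 1, 0) := rfl
  rw [this]
  simp

theorem us_add_l (U : Link n L l → SU N) (x : Site n L l) (s : ℕ) :
    us U x (l + s) = us U x s := by
  unfold us
  rw [add_smul, l_smul_dir, zero_add]

theorem seg_shift (U : Link n L l → SU N) (x : Site n L l) (b : ℕ) :
    seg (us U x) l b = seg (us U x) 0 b := by
  unfold seg
  congr 1
  refine List.map_congr_left fun s _ => ?_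
  rw [us_add_l, zero_add]

theorem coe_pow' (g : SU N) (c : ℕ) : (g ^ c).1 = g.1 ^ c := rfl

theorem ex_zero (A : Mt N) : ex 0 A = 1 := by
  unfold ex
  have h1 : (0 : ℝ) • A = 0 := zero_smul _ _
  have h2 : NormedSpace.exp ((0 : ℝ) • A) = (1 : Mt N) := by rw [h1, NormedSpace.exp_zero]
  split_ifs with h
  · apply Subtype.ext
    exact h2
  · rfl

theorem fl_zero (K : Site n L l → Mt N) (U : Link n L l → SU N) : fl K 0 U = U := by
  funext e
  unfold fl
  split_ifs with h
  · rw [ex_zero, one_mul]
  · rfl

theorem hasDerivAt_ex {A : Mt N} (hA : Aᴴ = -A) (hT : trace A = 0) :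
    HasDerivAt (fun t : ℝ => (ex t A).1) A 0 := by
  have h1 : (fun t : ℝ => (ex t A).1) = fun t : ℝ => NormedSpace.exp (t • A) := by
    funext t
    exact t_C0 N A hA hT t
  rw [h1]
  have h2 := hasDerivAt_exp_smul_const (𝕂 := ℝ) A (0 : ℝ)
  rw [zero_smul, NormedSpace.exp_zero, one_mul] at h2
  exact h2

theorem us_fl (K : Site n L l → Mt N) (t : ℝ) (U : Link n L l → SU N) (x : Site n L l) (s : ℕ) :
    us (fl K t U) x s = (ex t (K (x + s • dir 2))).1 * us U x s := by
  unfold us fl
  rw [if_pos rfl, coe_mul']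

theorem t_C1 : S_C1 := by
  intro N n L l _ _ _ _ U K hK c x
  have h0 : ∀ V : Link n L l → SU N, (lp V x).1 = seg (us V x) 0 l := by
    intro V
    have := lp_coe V x 0
    rwa [zero_smul, add_zero] at this
  have hM : ∀ s, HasDerivAt (fun t => us (fl K t U) x s)
      (K (x + s • dir 2) * us (fl K 0 U) x s) 0 := by
    intro s
    have h1 : (fun t => us (fl K t U) x s) =
        fun t => (ex t (K (x + s • dir 2))).1 * us U x s := by
      funext t; exact us_fl K t U x s
    rw [h1, fl_zero]
    exact (hasDerivAt_ex (hK _).1 (hK _).2).mul_const _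
  have h1 := hasDerivAt_trace_pow _ _ (hasDerivAt_seg (fun t s => us (fl K t U) x s)
    (fun s => K (x + s • dir 2)) hM l) c
  have h2 : (fun t : ℝ => W c (fl K t U) x) =
      fun t => trace (seg (fun s => us (fl K t U) x s) 0 l ^ c) := by
    funext t
    unfold W
    rw [coe_pow', h0]
  rw [h2]
  refine h1.congr_deriv ?_
  unfold dW
  rcases Nat.eq_zero_or_pos c with hc | hc
  · subst hc; simp
  congr 1
  simp only [fl_zero]
  rw [Finset.sum_mul, Matrix.trace_sum]
  refine Finset.sum_congr rfl fun τ hτ => ?_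
  rw [Finset.mem_range] at hτ
  have e0 : (fun s => us U x s) = us U x := rfl
  rw [e0]
  have e1 : seg (us U x) 0 l = seg (us U x) 0 τ * seg (us U x) τ (l - τ) := by
    have := seg_add (us U x) 0 τ (l - τ)
    rwa [zero_add, Nat.add_sub_cancel' hτ.le] at this
  have e2 : (lp U (x + τ • dir 2)).1 = seg (us U x) τ (l - τ) * seg (us U x) 0 τ := by
    rw [lp_coe]
    have := seg_add (us U x) τ (l - τ) τ
    rw [Nat.sub_add_cancel hτ.le] at this
    rw [this, Nat.add_sub_cancel' hτ.le, seg_shift]
  rw [coe_pow', e2, e1]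
  generalize seg (us U x) 0 τ = P
  generalize seg (us U x) τ (l - τ) = Q
  generalize K (x + τ • dir 2) = A
  obtain ⟨d, rfl⟩ : ∃ d, c = d + 1 := ⟨c - 1, by omega⟩
  rw [Nat.add_sub_cancel]
  have e3 : ∀ d : ℕ, Q * (P * Q) ^ d = (Q * P) ^ d * Q := by
    intro d
    induction d with
    | zero => simp
    | succ d ih => rw [pow_succ', pow_succ', ← mul_assoc, ← mul_assoc, mul_assoc (Q * P), ih,
        ← mul_assoc]
  calc trace (P * A * Q * (P * Q) ^ d) = trace (P * (A * (Q * (P * Q) ^ d))) := by
        simp only [mul_assoc]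
    _ = trace (A * (Q * (P * Q) ^ d) * P) := Matrix.trace_mul_comm _ _
    _ = trace (A * (Q * P) ^ (d + 1)) := by
        rw [e3, pow_succ]
        simp only [mul_assoc]

end Run7.h771.MQ
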