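import Pool.Agent.Run7.h771.MQ.C01

/-!
# The derivatives of the action and of the vector field
(pieces C2 and C3 of the interface `Run7.h630.MQ`)
-/

open MeasureTheory Matrix Filter Topology
open scoped Matrix.Norms.Frobenius ComplexConjugate

namespace Run7.h771.MQ

open Run7.h4.YM Run7.h630.ML Run7.h630.MQ

variable {N n L l : ℕ}

/-! ### the vector field -/

theorem hasDerivAt_pow_ring (M : ℝ → Mt N) (M' : Mt N) (h : HasDerivAt M M' 0) (c : ℕ) :
    HasDerivAt (fun t => M t ^ c)
      (∑ r ∈ Finset.range c, M 0 ^ r * M' * M 0 ^ (c - 1 - r)) 0 := by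
  induction c with
  | zero =>
    simp only [pow_zero, Finset.range_zero, Finset.sum_empty]
    exact hasDerivAt_const _ _
  | succ c ih =>
    have h1 := ih.mul h
    have h2 : (fun t => M t ^ (c + 1)) = (fun t => M t ^ c * M t) := by
      funext t; rw [pow_succ]
    rw [h2]
    refine h1.congr_deriv ?_
    rw [Finset.sum_range_succ, Finset.sum_mul]
    congr 1
    · refine Finset.sum_congr rfl fun r hr => ?_
      rw [Finset.mem_range] at hr
      have : c + 1 - 1 - r = (c - 1 - r) + 1 := by omega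
      rw [this, pow_succ]
      simp only [mul_assoc]
    · simp

theorem hasDerivAt_lp (U : Link n L l → SU N) (K : Site n L l → Mt N) (hK : Sk K)
    (x : Site n L l) :
    HasDerivAt (fun t : ℝ => (Run7.h630.MQ.lp (fl K t U) x).1)
      (∑ τ ∈ Finset.range l, seg (us U x) 0 τ * K (x + τ • dir 2) *
        seg (us U x) τ (l - τ)) 0 := by
  have h0 : ∀ V : Link n L l → SU N, (Run7.h630.MQ.lp V x).1 = seg (us V x) 0 l := by
    intro V
    have := lp_coe V x 0
    rwa [zero_smul, add_zero] at this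
  have hM : ∀ s, HasDerivAt (fun t => us (fl K t U) x s)
      (K (x + s • dir 2) * us (fl K 0 U) x s) 0 := by
    intro s
    have h1 : (fun t => us (fl K t U) x s) =
        fun t => (ex t (K (x + s • dir 2))).1 * us U x s := by
      funext t; exact us_fl K t U x s
    rw [h1, fl_zero]
    exact (hasDerivAt_ex (hK _).1 (hK _).2).mul_const _
  have h1 := hasDerivAt_seg (fun t s => us (fl K t U) x s)
    (fun s => K (x + s • dir 2)) hM l
  simp only [fl_zero] at h1
  have h2 : (fun t : ℝ => (Run7.h630.MQ.lp (fl K t U) x).1) =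
      fun t => seg (fun s => us (fl K t U) x s) 0 l := by
    funext t
    exact h0 _
  rw [h2]
  exact h1

/-- the projection as a linear map -/
noncomputable def prL (N : ℕ) : Mt N →ₗ[ℝ] Mt N where
  toFun := pr
  map_add' A B := by
    unfold pr
    rw [conjTranspose_add]
    have : A + B - (Aᴴ + Bᴴ) = (A - Aᴴ) + (B - Bᴴ) := by abel
    rw [this, trace_add, add_div, add_smul, smul_add]
    abel
  map_smul' r A := by
    unfold pr
    rw [conjTranspose_smul, star_trivial, ← smul_sub, trace_smul, RingHom.id_apply,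
      smul_sub r ((1 / 2 : ℂ) • (A - Aᴴ))]
    congr 1
    · rw [smul_comm]
    · rw [← smul_assoc]
      congr 1
      rw [Complex.real_smul, Complex.real_smul]
      ring

theorem hasDerivAt_pr (M : ℝ → Mt N) (M' : Mt N) (h : HasDerivAt M M' 0) :
    HasDerivAt (fun t => pr (M t)) (pr M') 0 :=
  (LinearMap.toContinuousLinearMap (prL N)).hasFDerivAt.comp_hasDerivAt (0 : ℝ) h

theorem smul_dir_ne {τ : ℕ} [NeZero l] (h0 : τ ≠ 0) (hl : τ < l) (x : Site n L l) :
    x + τ • dir 2 ≠ x := by
  intro h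
  have h1 : (τ • dir 2 : Site n L l) = 0 := by simpa using h
  have h2 : (dir 2 : Site n L l) = (0, 0, 1, 0) := rfl
  rw [h2] at h1
  have h3 : ((τ : ℕ) : ZMod l) = 0 := by
    have := congrArg (fun p : Site n L l => p.2.2.1) h1
    simpa using this
  rw [ZMod.natCast_eq_zero_iff] at h3
  exact h0 (Nat.eq_zero_of_dvd_of_lt h3 hl)

theorem sk_single [NeZero l] (x : Site n L l) {A : Mt N} (hA : Aᴴ = -A) (hT : trace A = 0) :
    Sk (Pi.single x A : Site n L l → Mt N) := by
  intro y
  by_cases h : y = x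
  · subst h
    rw [Pi.single_eq_same]
    exact ⟨hA, hT⟩
  · rw [Pi.single_eq_of_ne h]
    simp

theorem t_C3 : S_C3 := by
  intro N n L l _ _ _ _ U x A hA hT c a
  have hL := hasDerivAt_lp U (Pi.single x A : Site n L l → Mt N) (sk_single x hA hT) x
  have e1 : (∑ τ ∈ Finset.range l, seg (us U x) 0 τ *
      (Pi.single x A : Site n L l → Mt N) (x + τ • dir 2) * seg (us U x) τ (l - τ)) =
      A * (Run7.h630.MQ.lp U x).1 := by
    rw [Finset.sum_eq_single 0]
    · rw [zero_smul, add_zero, Pi.single_eq_same, seg_zero, one_mul, Nat.sub_zero]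
      have := lp_coe U x 0
      rw [zero_smul, add_zero] at this
      rw [this]
    · intro τ hτ h0
      rw [Finset.mem_range] at hτ
      rw [Pi.single_eq_of_ne (smul_dir_ne h0 hτ x), mul_zero, zero_mul]
    · intro h
      exfalso
      exact h (Finset.mem_range.mpr (Nat.pos_of_ne_zero (NeZero.ne l)))
  rw [e1] at hL
  have hP := hasDerivAt_pow_ring _ _ hL c
  simp only [fl_zero] at hP
  have hS := hP.const_smul (a x)
  have hR := hasDerivAt_pr _ _ hS
  have e2 : (fun t : ℝ => Yv c a (fl (Pi.single x A) t U) x) =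
      fun t : ℝ => pr ((a x • fun t : ℝ => (Run7.h630.MQ.lp (fl (Pi.single x A) t U) x).1 ^ c) t) := by
    funext t
    rfl
  rw [e2]
  refine hR.congr_deriv ?_
  congr 2
  refine Finset.sum_congr rfl fun r hr => ?_
  rw [Finset.mem_range] at hr
  rw [coe_pow', coe_pow']
  have : c - r = (c - 1 - r) + 1 := by omega
  rw [this, pow_succ']
  simp only [mul_assoc]

/-! ### the action -/

theorem coe_ex_inv {A : Mt N} (hA : Aᴴ = -A) (hT : trace A = 0) (t : ℝ) :
    ((ex t A)⁻¹).1 = (ex t (-A)).1 := by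
  have hA' : (-A)ᴴ = -(-A) := by rw [conjTranspose_neg, hA]
  have hT' : trace (-A) = 0 := by rw [trace_neg, hT, neg_zero]
  rw [coe_inv', t_C0 N A hA hT, t_C0 N (-A) hA' hT', Matrix.star_eq_conjTranspose,
    ← Matrix.exp_conjTranspose, Matrix.conjTranspose_smul, hA, star_trivial]

theorem hasDerivAt_ex_inv {A : Mt N} (hA : Aᴴ = -A) (hT : trace A = 0) :
    HasDerivAt (fun t : ℝ => ((ex t A)⁻¹).1) (-A) 0 := by
  have hA' : (-A)ᴴ = -(-A) := by rw [conjTranspose_neg, hA]
  have hT' : trace (-A) = 0 := by rw [trace_neg, hT, neg_zero]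
  have : (fun t : ℝ => ((ex t A)⁻¹).1) = fun t => (ex t (-A)).1 := by
    funext t; exact coe_ex_inv hA hT t
  rw [this]
  exact hasDerivAt_ex hA' hT'

theorem hasDerivAt_re_trace (z : ℂ) (M : ℝ → Mt N) (M' : Mt N) (h : HasDerivAt M M' 0) :
    HasDerivAt (fun t => (z * trace (M t)).re) (z * trace M').re 0 := by
  have h1 := (LinearMap.toContinuousLinearMap
      (Matrix.traceLinearMap (Fin N) ℝ ℂ)).hasFDerivAt.comp_hasDerivAt (0 : ℝ) h
  have h2 := Complex.reCLM.hasFDerivAt.comp_hasDerivAt (0 : ℝ) (h1.const_mul z)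
  exact h2

theorem hasDerivAt_plaq (U : Link n L l → SU N) (K : Site n L l → Mt N) (hK : Sk K)
    (x : Site n L l) {j : Fin 4} (hj : j ≠ 2) :
    HasDerivAt (fun t : ℝ => (plaq (fl K t U) x j 2).1)
      ((U (j, x)).1 * K (x + dir j) * (U (j, x)).1ᴴ * (plaq U x j 2).1 -
        (plaq U x j 2).1 * K x) 0 := by
  have h1 : (fun t : ℝ => (plaq (fl K t U) x j 2).1) = fun t : ℝ =>
      (U (j, x)).1 * (ex t (K (x + dir j))).1 *
        ((U (2, x + dir j)).1 * ((U (j, x + dir 2))⁻¹).1 * ((U (2, x))⁻¹).1) *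
        ((ex t (K x))⁻¹).1 := by
    funext t
    unfold plaq fl
    simp only [if_neg hj, if_true]
    rw [_root_.mul_inv_rev]
    simp only [coe_mul', mul_assoc]
  rw [h1]
  have h2 := (((hasDerivAt_ex (hK (x + dir j)).1 (hK (x + dir j)).2).const_mul
    (U (j, x)).1).mul_const
      ((U (2, x + dir j)).1 * ((U (j, x + dir 2))⁻¹).1 * ((U (2, x))⁻¹).1)).mul
        (hasDerivAt_ex_inv (hK x).1 (hK x).2)
  refine h2.congr_deriv ?_
  rw [ex_zero, ex_zero, inv_one, coe_one', mul_one, mul_one]
  have h3 : (plaq U x j 2).1 = (U (j, x)).1 *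
      ((U (2, x + dir j)).1 * ((U (j, x + dir 2))⁻¹).1 * ((U (2, x))⁻¹).1) := by
    unfold plaq
    simp only [coe_mul', mul_assoc]
  rw [h3, mul_neg, sub_eq_add_neg]
  congr 1
  rw [← Matrix.star_eq_conjTranspose]
  have h4 := star_mul_self' (U (j, x))
  generalize ((U (2, x + dir j)).1 * ((U (j, x + dir 2))⁻¹).1 * ((U (2, x))⁻¹).1) = B
  calc (U (j, x)).1 * K (x + dir j) * B = (U (j, x)).1 * K (x + dir j) * (1 * B) := by
        rw [one_mul]
    _ = _ := by rw [← h4]; simp only [mul_assoc]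

/-- the action of the plaquettes which contain the direction `2` -/
theorem action_split [NeZero n] [NeZero L] [NeZero l] (k : ℕ) (U : Link n L l → SU N) :
    action k U = ∑ x : Site n L l, ((((N : ℝ) - (twist N k x 0 1 * trace (plaq U x 0 1).1).re) +
        ((N : ℝ) - (twist N k x 0 3 * trace (plaq U x 0 3).1).re) +
        ((N : ℝ) - (twist N k x 1 3 * trace (plaq U x 1 3).1).re)) +
      ∑ j ∈ D3, ((N : ℝ) - (conj (zt N k x j) * trace (plaq U x j 2).1).re)) := by
  unfold action
  have hI0 : (Finset.Ioi (0 : Fin 4)) = {1, 2, 3} := by decide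
  have hI1 : (Finset.Ioi (1 : Fin 4)) = {2, 3} := by decide
  have hI2 : (Finset.Ioi (2 : Fin 4)) = {3} := by decide
  have hI3 : (Finset.Ioi (3 : Fin 4)) = ∅ := by decide
  refine Finset.sum_congr rfl fun x _ => ?_
  rw [Fin.sum_univ_four, hI0, hI1, hI2, hI3]
  unfold D3
  rw [Finset.sum_insert (by decide), Finset.sum_insert (by decide), Finset.sum_singleton,
    Finset.sum_insert (by decide), Finset.sum_singleton, Finset.sum_singleton, Finset.sum_empty,
    Finset.sum_insert (by decide), Finset.sum_insert (by decide), Finset.sum_singleton]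
  have e02 : twist N k x 0 2 = conj (zt N k x 0) := by
    unfold twist zt
    rw [if_neg (by simp), if_neg (by simp), map_one]
  have e12 : twist N k x 1 2 = conj (zt N k x 1) := by
    unfold twist zt
    rw [if_neg (by simp), if_neg (by simp), map_one]
  have e23 : (twist N k x 2 3 * trace (plaq U x 2 3).1).re =
      (conj (zt N k x 3) * trace (plaq U x 3 2).1).re := by
    have h1 : plaq U x 2 3 = (plaq U x 3 2)⁻¹ := by
      unfold plaq; group
    have h2 : twist N k x 2 3 = zt N k x 3 := by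
      unfold twist zt Run7.h630.MQ.om
      simp
    rw [h1, h2, tr_inv]
    have h3 : (conj (zt N k x 3) * trace (plaq U x 3 2).1) =
        conj (zt N k x 3 * star (trace (plaq U x 3 2).1)) := by
      rw [map_mul, RCLike.star_def, Complex.conj_conj]
    rw [h3, Complex.conj_re]
  rw [e02, e12, e23]
  ring

theorem plaq_fl_const (U : Link n L l → SU N) (K : Site n L l → Mt N) (t : ℝ) (x : Site n L l)
    {i j : Fin 4} (hi : i ≠ 2) (hj : j ≠ 2) : plaq (fl K t U) x i j = plaq U x i j := by
  unfold plaq fl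
  simp only [if_neg hi, if_neg hj]

theorem t_C2 : S_C2 := by
  intro N n L l k _ _ _ _ U K hK
  have h1 : (fun t : ℝ => action k (fl K t U)) = fun t : ℝ =>
      ∑ x : Site n L l, ((((N : ℝ) - (twist N k x 0 1 * trace (plaq U x 0 1).1).re) +
        ((N : ℝ) - (twist N k x 0 3 * trace (plaq U x 0 3).1).re) +
        ((N : ℝ) - (twist N k x 1 3 * trace (plaq U x 1 3).1).re)) +
      ∑ j ∈ D3, ((N : ℝ) - (conj (zt N k x j) * trace (plaq (fl K t U) x j 2).1).re)) := by
    funext t
    rw [action_split]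
    refine Finset.sum_congr rfl fun x _ => ?_
    rw [plaq_fl_const U K t x (by decide : (0 : Fin 4) ≠ 2) (by decide : (1 : Fin 4) ≠ 2),
      plaq_fl_const U K t x (by decide : (0 : Fin 4) ≠ 2) (by decide : (3 : Fin 4) ≠ 2),
      plaq_fl_const U K t x (by decide : (1 : Fin 4) ≠ 2) (by decide : (3 : Fin 4) ≠ 2)]
  rw [h1]
  have h2 : HasDerivAt (fun t : ℝ =>
      ∑ x : Site n L l, ((((N : ℝ) - (twist N k x 0 1 * trace (plaq U x 0 1).1).re) +
        ((N : ℝ) - (twist N k x 0 3 * trace (plaq U x 0 3).1).re) +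
        ((N : ℝ) - (twist N k x 1 3 * trace (plaq U x 1 3).1).re)) +
      ∑ j ∈ D3, ((N : ℝ) - (conj (zt N k x j) * trace (plaq (fl K t U) x j 2).1).re)))
      (∑ x : Site n L l, ∑ j ∈ D3, -(conj (zt N k x j) * trace ((U (j, x)).1 * K (x + dir j) *
        (U (j, x)).1ᴴ * (plaq U x j 2).1 - (plaq U x j 2).1 * K x)).re) 0 := by
    refine HasDerivAt.fun_sum fun x _ => ?_
    refine HasDerivAt.const_add _ ?_
    refine HasDerivAt.fun_sum fun j hj => ?_
    refine HasDerivAt.const_sub _ ?_
    have hj2 : j ≠ 2 := by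
      rintro rfl
      exact absurd hj (by decide)
    exact hasDerivAt_re_trace _ _ _ (hasDerivAt_plaq U K hK x hj2)
  refine h2.congr_deriv ?_
  unfold dS
  simp only [Finset.sum_neg_distrib]

end Run7.h771.MQ
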